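import Pool.Agent.Lib.MP_def338_an.Explicit

/-!
The central Cantor set of `a = (1/9, 1/2, 1/9, 1/2, …)` (indices start at `1`).
-/

set_option autoImplicit false

namespace Pool.Agent.Results.MP_def338_an.ExplicitCounterexample

open Pool.Agent.Lib.MP_def338_an
open scoped Pointwise

theorem result (a lam x : ℕ → ℝ) (C : Set ℝ)
    (ha : ∀ n, a n = if Odd n then 1 / 9 else 1 / 2)
    (hlam : ∀ n, lam n = (1 - a n) / 2)
    (hx : ∀ n, x n = (∏ i ∈ Finset.Ico 1 n, lam i) * (1 - lam n))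
    (hC : C = {s : ℝ | ∃ A : Set ℕ, (∀ j ∈ A, 1 ≤ j) ∧ HasSum (fun j : A => x j) s}) :
    Set.Icc (2 / 9 : ℝ) (1 / 3) ⊆ C - C ∧
    (∀ k : ℕ, Disjoint (Set.Ioo (6 / 9 ^ (k + 1) : ℝ) (7 / 9 ^ (k + 1))) (C - C)) ∧
    (interior (C - C)).Nonempty ∧ (0 : ℝ) ∉ interior (C - C) := by
  have ha' : ∀ n, a (n + 1) = aa n := by
    intro n
    rw [ha, aa]
    simp only [Nat.odd_add_one, Nat.not_odd_iff]
  have hx' : ∀ n, x (n + 1) = xx n := by
    intro n
    rw [hx, xx, Finset.prod_Ico_eq_prod_range]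
    simp only [hlam, Nat.add_sub_cancel, add_comm 1, ha']
  have hD : C - C = DD := by
    rw [hC, subsums_eq x hx']
    ext z
    simp only [Set.mem_sub, DD, Set.mem_ofPred_eq, eq_comm]
  rw [hD]
  exact ⟨Icc_subset_DD, fun k => Set.disjoint_left.2 fun z hz => DD_gaps k z hz.1 hz.2,
    interior_nonempty, zero_not_mem⟩

end Pool.Agent.Results.MP_def338_an.ExplicitCounterexample
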