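import Pool.Agent.Lib.MP_def338_an.FamC

set_option autoImplicit false

namespace Pool.Agent.Results.MP_def338_an.FamilyCantorvals

open Set Filter Topology Pool.Agent.Lib.MP_def338_an
open scoped Pointwise

/-- In the family `a (2 n - 1) = (1 - 6 q) / 5`, `a (2 n) = (2 - 7 q) / (2 + 3 q)` (indices start
at `1`), for the roots `q` of `7 q + 9 q ^ (d + 2) = 1` the difference set of the central Cantor
set is a Cantorval that does not have `0` in its interior. -/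
theorem result : ∃ q : ℕ → ℝ, StrictMono q ∧ Tendsto q atTop (𝓝 (1 / 7)) ∧ ∀ d : ℕ,
    1 / 9 < q d ∧ q d < 1 / 7 ∧ 7 * q d + 9 * q d ^ (d + 2) = 1 ∧
    ∀ (a lam x : ℕ → ℝ) (C K P : Set ℝ),
      (∀ n, a n = if Odd n then (1 - 6 * q d) / 5 else (2 - 7 * q d) / (2 + 3 * q d)) →
      (∀ n, lam n = (1 - a n) / 2) →
      (∀ n, x n = (∏ i ∈ Finset.Ico 1 n, lam i) * (1 - lam n)) →
      C = {s : ℝ | ∃ A : Set ℕ, (∀ j ∈ A, 1 ≤ j) ∧ HasSum (fun j : A => x j) s} →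
      K = C - C → P = {y ∈ K | connectedComponentIn K y = {y}} →
      (∀ n, 0 < a n ∧ a n < 1) ∧
      (K.Nonempty ∧ IsCompact K ∧ closure (interior K) = K ∧ ∀ u v : ℝ, u < v →
        (∃ y ∈ K, connectedComponentIn K y = Icc u v) → AccPt u (𝓟 P) ∧ AccPt v (𝓟 P)) ∧
      (interior K).Nonempty ∧ (0 : ℝ) ∉ interior K := by
  obtain ⟨q, h1, h2, h3⟩ := exists_roots
  refine ⟨q, h1, h2, fun d => ⟨(h3 d).1, (h3 d).2.1, (h3 d).2.2, ?_⟩⟩
  rintro a lam x _ _ _ ha hlam hx rfl rfl rfl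
  obtain ⟨q0, q1, e⟩ := h3 d
  have ht := tm_of q0 q1 ha hlam hx
  have hs := ht.ss
  rw [ht.subsums x fun _ => rfl]
  refine ⟨fun n => ?_, ⟨⟨_, hs.bot⟩, hs.cpt, hs.closure_int (hs.int_ne e),
    fun u v huv ⟨y, hy, ey⟩ => hs.ends huv hy ey⟩, hs.int_ne e, hs.zero_not e⟩
  rw [ha]
  split_ifs
  · constructor <;> linarith
  · exact ⟨div_pos (by linarith) (by linarith), (div_lt_one (by linarith)).2 (by linarith)⟩

end Pool.Agent.Results.MP_def338_an.FamilyCantorvals
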