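import Pool.Agent.Lib.MP_def338_an.ExC

set_option autoImplicit false

namespace Pool.Agent.Results.MP_def338_an.SharpExponent

open Set MeasureTheory Pool.Agent.Lib.MP_def338_an
open scoped Pointwise

/-- How thin the difference set `K` of a central Cantor set can be near `0` when it has interior
points (indices start at `1`): measure at most `r ^ s` in `[-r, r]` for arbitrarily small `r` is
possible exactly for `s < log₂ 3`. -/
theorem result (s : ℝ) :
    (∃ (a lam x : ℕ → ℝ) (C K : Set ℝ), (∀ n, 0 < a n ∧ a n < 1) ∧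
      (∀ n, lam n = (1 - a n) / 2) ∧
      (∀ n, x n = (∏ i ∈ Finset.Ico 1 n, lam i) * (1 - lam n)) ∧
      C = {t : ℝ | ∃ A : Set ℕ, (∀ j ∈ A, 1 ≤ j) ∧ HasSum (fun j : A => x j) t} ∧
      K = C - C ∧ (interior K).Nonempty ∧ ∀ δ : ℝ, 0 < δ →
        ∃ r : ℝ, 0 < r ∧ r < δ ∧ volume (K ∩ Icc (-r) r) ≤ ENNReal.ofReal (r ^ s)) ↔
    s < Real.logb 2 3 := by
  constructor
  · rintro ⟨a, lam, x, _, _, ha, hlam, hx, rfl, rfl, hi, hv⟩
    obtain ⟨h, -⟩ := ns_of ha hlam hx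
    obtain ⟨pos, ht⟩ := ns_of' ha hlam hx
    rw [h.subsums x fun _ => rfl] at hi hv
    obtain ⟨δ, hδ, hr⟩ := h.thick pos ht (Measure.measure_pos_of_nonempty_interior _ hi)
    obtain ⟨r, r0, r1, hr'⟩ := hv (min δ 1) (lt_min hδ one_pos)
    rw [lt_min_iff] at r1
    exact lt_of_not_ge fun hs => (hr r r0 r1.1).not_ge (hr'.trans (ENNReal.ofReal_le_ofReal
      (Real.rpow_le_rpow_of_exponent_ge r0 r1.2.le hs)))
  · intro hs
    have l1 : 1 < Real.logb 2 3 :=
      (Real.lt_logb_iff_rpow_lt one_lt_two (by norm_num)).2 (by norm_num)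
    obtain ⟨y, ρ, h, pos, h1, ρ1, hρ, hi, hv⟩ :=
      exists_seq (lt_max_of_lt_right one_pos) (max_lt hs l1)
    obtain ⟨a, ha, hy⟩ := h.central pos h1 ρ1 hρ
    refine ⟨a, _, _, _, _, ha, fun _ => rfl, fun _ => rfl, rfl, rfl, ?_⟩
    rw [h.subsums _ (hy _ _ (fun _ => rfl) fun _ => rfl)]
    refine ⟨hi, fun δ hδ => ?_⟩
    obtain ⟨r, r0, r1, hr⟩ := hv (min δ 1) (lt_min hδ one_pos)
    exact ⟨r, r0, r1.trans_le (min_le_left _ _), hr.trans (ENNReal.ofReal_le_ofReal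
      (Real.rpow_le_rpow_of_exponent_ge r0 (r1.le.trans (min_le_right _ _)) (le_max_left _ _)))⟩

end Pool.Agent.Results.MP_def338_an.SharpExponent
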